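import Pool.Agent.Run7.h719.CD.Low
import Pool.Agent.Run7.h719.CD.Up
import Pool.Agent.Results.MP_103a5c_nt.BeyondOne

open Filter Set

namespace Pool.Agent.Results.MP_21f43f_nt.ConsecutiveDifferences

/-- multiplicity of `s` as a zero of the Riemann zeta function (order of vanishing at `s`) -/
noncomputable def zmult (s : ℂ) : ℕ := analyticOrderNatAt riemannZeta s

/-- the number of nontrivial zeros of `ζ` with ordinate in `(0, t]`, with multiplicity -/
noncomputable def NZ (t : ℝ) : ℕ :=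
  ∑ᶠ s ∈ {s : ℂ | riemannZeta s = 0 ∧ 0 < s.re ∧ s.re < 1 ∧ 0 < s.im ∧ s.im ≤ t}, zmult s

/-- for `n ≥ 1`: `γ_n`, the `n`-th positive ordinate of a nontrivial zero of `ζ`, the ordinates
being listed in nondecreasing order and repeated according to multiplicity -/
noncomputable def ord (n : ℕ) : ℝ := sInf {t : ℝ | n ≤ NZ t}

/-- the normalised ordinate `(1 / 2π) γ_n log γ_n` -/
noncomputable def nord (n : ℕ) : ℝ := 1 / (2 * Real.pi) * ord n * Real.log (ord n)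

/-- the normalised gap `δ_n` between the `n`-th and the `(n+1)`-st zero -/
noncomputable def gap (n : ℕ) : ℝ := nord (n + 1) - nord n

lemma gap_eq (n : ℕ) : gap n = LG.dlt n := by
  have e : ∀ m : ℕ, SG.ord m = ord m := fun m => rfl
  unfold LG.dlt gap nord
  rw [e, e]
  ring

lemma F_eq {T : ℝ} (hT : 10 ≤ T) (α : ℝ) :
    MP_103a5c_nt.BeyondOne.F α T = (Pool.Agent.Y749.Rig.Fr T α : ℂ) := by
  rw [← Pool.Agent.Y749.Rig.P.F_eq hT α]
  unfold MP_103a5c_nt.BeyondOne.F Pool.Agent.Y749.Rig.P.F Pool.Agent.Y744.G.X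
  push_cast
  rfl

lemma beyond (hRH : RiemannHypothesis) (ε : ℝ) (hε : 0 < ε) : ∀ᶠ T in Filter.atTop,
    ∀ α ∈ Set.Icc (1 : ℝ) (3 / 2), 3 / 2 - α - ε ≤ Pool.Agent.Y749.Rig.Fr T α := by
  obtain ⟨T0, h⟩ := MP_103a5c_nt.BeyondOne.result.1 ε hε
  filter_upwards [Filter.eventually_ge_atTop T0, Filter.eventually_ge_atTop 10] with T h1 h2
  intro α hα
  have h3 := (h T h1 α hα.1 hα.2).2
  rwa [MP_103a5c_nt.BeyondOne.result.2 hRH α T, F_eq h2, Complex.ofReal_re] at h3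

theorem lower (RH : RiemannHypothesis) : ∀ᶠ N : ℕ in atTop, ∀ a : ℕ → ℝ,
    (0.0485 : ℝ) ≤ (1 / N : ℝ) * ∑ n ∈ Finset.Icc 1 N, |gap n - a n| +
      6 / 7 * ((1 / N : ℝ) * ∑ n ∈ Finset.Icc 1 N, |a (n + 1) - a n|) := by
  filter_upwards [Run7.h719.CD.low RH (beyond RH), eventually_gt_atTop 0,
    Run7.h719.CD.sum_abs RH (1 / 10000) (by norm_num)] with N h1 hN h2 a
  have hNpos : (0 : ℝ) < N := by exact_mod_cast hN
  have h3 := h1 a
  have h4 : ∑ n ∈ Finset.Icc 1 N, |Pool.Agent.Y747.dl n - a n| ≤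
      ∑ n ∈ Finset.Icc 1 N, |gap n - a n| + 1 / 10000 * N := by
    refine le_trans ?_ (add_le_add le_rfl h2)
    rw [← Finset.sum_add_distrib]
    refine Finset.sum_le_sum fun n _ => ?_
    rw [gap_eq]
    have e : Pool.Agent.Y747.dl n - a n = (LG.dlt n - a n) - (LG.dlt n - Pool.Agent.Y747.dl n) := by
      ring
    rw [e]
    exact abs_sub _ _
  have e : (1 / N : ℝ) * ∑ n ∈ Finset.Icc 1 N, |gap n - a n| +
      6 / 7 * ((1 / N : ℝ) * ∑ n ∈ Finset.Icc 1 N, |a (n + 1) - a n|) =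
      (∑ n ∈ Finset.Icc 1 N, |gap n - a n| + 6 / 7 * ∑ n ∈ Finset.Icc 1 N, |a (n + 1) - a n|) / N := by
    field_simp
  rw [e, le_div_iff₀ hNpos]
  linarith

theorem upper (RH : RiemannHypothesis) : ∀ᶠ N : ℕ in atTop,
    (1 / N : ℝ) * ∑ n ∈ Finset.Icc 1 N, |gap (n + 1) - gap n| ≤ 0.81 := by
  filter_upwards [Run7.h719.CD.consec_le RH, eventually_gt_atTop 0,
    Run7.h719.CD.sum_abs RH (1 / 10000) (by norm_num),
    (tendsto_add_atTop_nat 1).eventually (Run7.h719.CD.sum_abs RH (1 / 10000) (by norm_num))]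
    with N h1 hN h2 h3
  have hNpos : (1 : ℝ) ≤ N := by exact_mod_cast hN
  have h4 : ∑ n ∈ Finset.Icc 1 N, |LG.dlt (n + 1) - Pool.Agent.Y747.dl (n + 1)| ≤
      ∑ n ∈ Finset.Icc 1 (N + 1), |LG.dlt n - Pool.Agent.Y747.dl n| := by
    rw [Run7.h719.CD.shift_eq (fun k => |LG.dlt k - Pool.Agent.Y747.dl k|) 1 N 1]
    apply Finset.sum_le_sum_of_subset_of_nonneg
    · exact Finset.Icc_subset_Icc_left (by omega)
    · intro n _ _
      exact abs_nonneg _
  have h5 : ∑ n ∈ Finset.Icc 1 N, |gap (n + 1) - gap n| ≤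
      ∑ n ∈ Finset.Icc 1 N, |Pool.Agent.Y747.dl (n + 1) - Pool.Agent.Y747.dl n| +
        ∑ n ∈ Finset.Icc 1 N, |LG.dlt n - Pool.Agent.Y747.dl n| +
        ∑ n ∈ Finset.Icc 1 N, |LG.dlt (n + 1) - Pool.Agent.Y747.dl (n + 1)| := by
    rw [← Finset.sum_add_distrib, ← Finset.sum_add_distrib]
    refine Finset.sum_le_sum fun n _ => ?_
    rw [gap_eq, gap_eq]
    have e : LG.dlt (n + 1) - LG.dlt n = (Pool.Agent.Y747.dl (n + 1) - Pool.Agent.Y747.dl n) -
        (LG.dlt n - Pool.Agent.Y747.dl n) + (LG.dlt (n + 1) - Pool.Agent.Y747.dl (n + 1)) := by ring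
    rw [e]
    exact (abs_add_le _ _).trans (add_le_add (abs_sub _ _) le_rfl)
  push_cast at h3
  rw [one_div, inv_mul_eq_div, div_le_iff₀ (by linarith)]
  linarith

/-- **Consecutive gaps, on the Riemann hypothesis.**  (1) No slowly varying sequence is close to the
gaps: for all large `N` and every real sequence `a`, the mean of `|δ_n - a_n|` over `n ≤ N` plus
`6/7` times the mean of `|a_{n+1} - a_n|` is at least `0.0485`.  (2) For all large `N` the mean of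
`|δ_{n+1} - δ_n|` over `n ≤ N` lies between `0.0565` and `0.81`. -/
theorem result (RH : RiemannHypothesis) :
    (∀ᶠ N : ℕ in atTop, ∀ a : ℕ → ℝ,
      0.0485 ≤ (1 / N : ℝ) * ∑ n ∈ Finset.Icc 1 N, |gap n - a n| +
        6 / 7 * ((1 / N : ℝ) * ∑ n ∈ Finset.Icc 1 N, |a (n + 1) - a n|)) ∧
    (∀ᶠ N : ℕ in atTop,
      0.0565 ≤ (1 / N : ℝ) * ∑ n ∈ Finset.Icc 1 N, |gap (n + 1) - gap n| ∧
      (1 / N : ℝ) * ∑ n ∈ Finset.Icc 1 N, |gap (n + 1) - gap n| ≤ 0.81) := by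
  refine ⟨lower RH, ?_⟩
  filter_upwards [lower RH, upper RH] with N h1 h2
  refine ⟨?_, h2⟩
  have h3 := h1 gap
  simp only [sub_self, abs_zero, Finset.sum_const_zero, mul_zero, zero_add] at h3
  linarith

end Pool.Agent.Results.MP_21f43f_nt.ConsecutiveDifferences
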