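import Pool.Agent.Run7.h911.SZ8

/-!
# The gaps between the zeros of zeta are dispersed at every size of zeta (under RH)

Assume the Riemann hypothesis. Write `γ_n` for the ordinates of the zeros of `ζ` and `δ_n` for the
normalised gaps. The normalised size of `ζ` at height `t` is
`size t = √2 log |ζ(1/2 + i t)| / √(log log t)`, and `Near a b n` says that the size lies in `(a, b)`
on at least nine tenths of the window `|t - γ_n| ≤ 1 / log γ_n`.

There is an absolute constant `0 < c ≤ 1 / 10` such that: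

(1) if the set `A` of indices varies slowly into `B`, then up to `o(N)` at least `c #{n ≤ N : n ∈ A}`
of the `n ≤ N` lie in `B` and satisfy `δ_n < 1 - c`, and as many lie in `B` and satisfy
`δ_n > 1 + c`;

(2) for all `a < b` the proportion of the `n ≤ N` with `Near a b n` tends to the Gaussian measure
`G(a, b)` of `(a, b)`;

(3) for all `a < b`, up to `o(N)` at least `c G(a, b) N` of the `n ≤ N` satisfy `Near a b n` and
`δ_n < 1 - c`, and as many satisfy `Near a b n` and `δ_n > 1 + c`;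

(4) for all `a < b` a positive proportion of all `n` satisfies `Near a b n` and `δ_n > 1.888`, and a
positive proportion satisfies `Near a b n` and `δ_n < 0.6686`.
-/

open Filter Topology MeasureTheory

namespace Pool.Agent.Results.MP_21f43f_nt.DispersionAtEverySize

/-- multiplicity of `s` as a zero of the Riemann zeta function (order of vanishing at `s`) -/
noncomputable def zmult (s : ℂ) : ℕ := analyticOrderNatAt riemannZeta s

/-- the number of nontrivial zeros of `ζ` with ordinate in `(0, t]`, with multiplicity -/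
noncomputable def NZ (t : ℝ) : ℕ :=
  ∑ᶠ s ∈ {s : ℂ | riemannZeta s = 0 ∧ 0 < s.re ∧ s.re < 1 ∧ 0 < s.im ∧ s.im ≤ t}, zmult s

/-- for `n ≥ 1`: the `n`-th positive ordinate `γ n` of a nontrivial zero of `ζ`, the ordinates being
listed in nondecreasing order and repeated according to multiplicity -/
noncomputable def γ (n : ℕ) : ℝ := sInf {t : ℝ | n ≤ NZ t}

/-- the normalised gaps `δ_n = (γ_{n+1} log γ_{n+1} - γ_n log γ_n) / 2π` -/
noncomputable def δ (n : ℕ) : ℝ :=
  (γ (n + 1) * Real.log (γ (n + 1)) - γ n * Real.log (γ n)) / (2 * Real.pi)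

/-- the number of the `n` with `1 ≤ n ≤ N` and the property `P` -/
noncomputable def count (N : ℕ) (P : ℕ → Prop) : ℝ := ({n : ℕ | 1 ≤ n ∧ n ≤ N ∧ P n}.ncard : ℝ)

/-- `A` varies slowly into `B`: for all `m` and `ε > 0`, for all large `N`, at most `ε N` of the
`n ≤ N` lie in `A` while one of `n, n + 1, …, n + m - 1` is not in `B` -/
def Slow (A B : Set ℕ) : Prop := ∀ (m : ℕ) (ε : ℝ), 0 < ε → ∃ N₀ : ℕ, ∀ N : ℕ, N₀ ≤ N →
  count N (fun n => n ∈ A ∧ ∃ i < m, n + i ∉ B) ≤ ε * N

/-- the normalised size of `ζ` at height `t` -/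
noncomputable def size (t : ℝ) : ℝ :=
  Real.sqrt 2 * (Real.log ‖riemannZeta (1 / 2 + t * Complex.I)‖ / Real.sqrt (Real.log (Real.log t)))

/-- the window around `γ_n`, of the length `2 / log γ_n` -/
def window (n : ℕ) : Set ℝ := Set.Icc (γ n - 1 / Real.log (γ n)) (γ n + 1 / Real.log (γ n))

/-- the size of `ζ` lies in `(a, b)` on at least nine tenths of the window around `γ_n` -/
def Near (a b : ℝ) (n : ℕ) : Prop :=
  9 / 10 * (2 / Real.log (γ n)) ≤ volume.real {t : ℝ | t ∈ window n ∧ a < size t ∧ size t < b}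

/-- the standard Gaussian measure of the interval `(a, b)` -/
noncomputable def G (a b : ℝ) : ℝ := (ProbabilityTheory.gaussianReal 0 1).real (Set.Ioo a b)

theorem result (RH : RiemannHypothesis) : ∃ c : ℝ, 0 < c ∧ c ≤ 1 / 10 ∧
    (∀ A B : Set ℕ, Slow A B → ∀ ε : ℝ, 0 < ε → ∃ N₀ : ℕ, ∀ N : ℕ, N₀ ≤ N →
      c * count N (fun n => n ∈ A) - ε * N ≤ count N (fun n => n ∈ B ∧ δ n < 1 - c) ∧
      c * count N (fun n => n ∈ A) - ε * N ≤ count N (fun n => n ∈ B ∧ 1 + c < δ n)) ∧
    (∀ a b : ℝ, a < b → Tendsto (fun N : ℕ => count N (Near a b) / N) atTop (𝓝 (G a b))) ∧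
    (∀ a b : ℝ, a < b → ∀ ε : ℝ, 0 < ε → ∃ N₀ : ℕ, ∀ N : ℕ, N₀ ≤ N →
      (c * G a b - ε) * N ≤ count N (fun n => Near a b n ∧ δ n < 1 - c) ∧
      (c * G a b - ε) * N ≤ count N (fun n => Near a b n ∧ 1 + c < δ n)) ∧
    (∀ a b : ℝ, a < b → ∃ κ : ℝ, 0 < κ ∧ ∃ N₀ : ℕ, ∀ N : ℕ, N₀ ≤ N →
      κ * N ≤ count N (fun n => Near a b n ∧ 1888 / 1000 < δ n) ∧
      κ * N ≤ count N (fun n => Near a b n ∧ δ n < 6686 / 10000)) := by
  obtain ⟨c, hc, hc1, h1, h2, h3⟩ := Run7.h911.SZ.main RH
  exact ⟨c, hc, hc1, h1, h2, h3, Run7.h911.SZ.extreme RH⟩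

end Pool.Agent.Results.MP_21f43f_nt.DispersionAtEverySize
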