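import Pool.Agent.Run7.h435.MEg

/-!
**The extreme sums of consecutive gaps of the zeros of zeta, at all scales.**  On the Riemann hypothesis.

Let `X n k` be the sum of the `k` gaps following `γ n`, minus `k`, that is by how much the `k`-th zero
after `γ n` is late.  For almost every zero, at ALL scales `m ≥ m₀` at once, the greatest and the least
of `X n 1, …, X n m` are `± (1 / π + o(1)) log m`, and for `0 < a < 1` the number of the `k ≤ m` with
`X n k ≥ (a / π) log m` (and with `X n k ≤ -(a / π) log m`) is `m ^ (1 - a ^ 2 + o(1))`.  The same holds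
for the deviation `D n` of the counting function.

The hypothesis of the problem, for all finite sets of neighbouring gaps, says that the sequence of the gaps
seen from a random zero converges to the gaps of the sine process, for which this is the law of the maximal
deviation.
-/

set_option autoImplicit false

open Filter

namespace Pool.Agent.Results.MP_21f43f_nt.ExtremeSumsOfGaps

/-- multiplicity of `s` as a zero of the Riemann zeta function (order of vanishing at `s`) -/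
noncomputable def zmult (s : ℂ) : ℕ := analyticOrderNatAt riemannZeta s

/-- the number of nontrivial zeros of `ζ` with ordinate in `(0, t]`, with multiplicity -/
noncomputable def NZ (t : ℝ) : ℕ :=
  ∑ᶠ s ∈ {s : ℂ | riemannZeta s = 0 ∧ 0 < s.re ∧ s.re < 1 ∧ 0 < s.im ∧ s.im ≤ t}, zmult s

/-- for `n ≥ 1`: the `n`-th positive ordinate `γ n` of a nontrivial zero of `ζ`, the ordinates being
listed in nondecreasing order and repeated according to multiplicity -/
noncomputable def γ (n : ℕ) : ℝ := sInf {t : ℝ | n ≤ NZ t}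

/-- the normalised ordinates `γ log γ / 2 π` -/
noncomputable def γt (n : ℕ) : ℝ := 1 / (2 * Real.pi) * γ n * Real.log (γ n)

/-- the normalised gaps -/
noncomputable def δ (n : ℕ) : ℝ := γt (n + 1) - γt n

/-- the sum of the `k` gaps following `γ n`, minus `k` -/
noncomputable def X (n k : ℕ) : ℝ := ∑ l ∈ Finset.range k, (δ (n + l) - 1)

/-- the deviation of the counting function: the number of zeros with ordinates in
`(γ n, γ n + 2 π x / log (γ n)]`, minus `x` -/
noncomputable def D (n : ℕ) (x : ℝ) : ℝ :=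
  (NZ (γ n + 2 * Real.pi * x / Real.log (γ n)) : ℝ) - NZ (γ n) - x

/-- the numbers `f 1, …, f m` have extreme values `± (1 / π) log m` and thick points of dimension
`1 - a ^ 2`, up to `ε` -/
structure Law (ε : ℝ) (m : ℕ) (f : ℕ → ℝ) : Prop where
  /-- the values are at most `(1 / π + ε) log m` in modulus -/
  bounded : ∀ k : ℕ, 1 ≤ k → k ≤ m → |f k| ≤ (1 / Real.pi + ε) * Real.log m
  /-- for `0 ≤ a ≤ 1 - ε` at least `m ^ (1 - a ^ 2 - ε)` values are at least `(a / π) log m` -/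
  high : ∀ a : ℝ, 0 ≤ a → a ≤ 1 - ε →
    (m : ℝ) ^ (1 - a ^ 2 - ε) ≤ ({k : ℕ | 1 ≤ k ∧ k ≤ m ∧ a / Real.pi * Real.log m ≤ f k}.ncard : ℝ)
  /-- for `0 ≤ a ≤ 1 - ε` at least `m ^ (1 - a ^ 2 - ε)` values are at most `-(a / π) log m` -/
  low : ∀ a : ℝ, 0 ≤ a → a ≤ 1 - ε →
    (m : ℝ) ^ (1 - a ^ 2 - ε) ≤ ({k : ℕ | 1 ≤ k ∧ k ≤ m ∧ a / Real.pi * Real.log m ≤ -f k}.ncard : ℝ)
  /-- for `0 ≤ a ≤ 1` at most `m ^ (1 - a ^ 2 + ε)` values are at least `(a / π) log m` in modulus -/
  few : ∀ a : ℝ, 0 ≤ a → a ≤ 1 →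
    ({k : ℕ | 1 ≤ k ∧ k ≤ m ∧ a / Real.pi * Real.log m ≤ |f k|}.ncard : ℝ) ≤ (m : ℝ) ^ (1 - a ^ 2 + ε)

/-- the window of the scale `m` following `γ n` is good, up to `ε` -/
structure Good (ε : ℝ) (m n : ℕ) : Prop where
  /-- the law for the sums of gaps -/
  gaps : Law ε m (X n)
  /-- the law for the deviations of the counting function at the integers -/
  count : Law ε m (fun j => D n j)
  /-- the deviation of the counting function is at most `(1 / π + ε) log m` in the whole window -/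
  rigid : ∀ x : ℝ, 0 ≤ x → x ≤ m → |D n x| ≤ (1 / Real.pi + ε) * Real.log m

/-- Assume RH.  For every `ε > 0` there is `m₀` such that for every `M` and all large `N`, the proportion
of the `n ≤ N` for which the windows of all the scales `m₀ ≤ m ≤ M` following `γ n` are good is at least
`1 - ε`. -/
theorem result (hRH : RiemannHypothesis) : ∀ ε : ℝ, 0 < ε → ∃ m₀ : ℕ, ∀ M : ℕ, ∀ᶠ N : ℕ in atTop,
    1 - ε ≤ (1 / N : ℝ) * ({n : ℕ | 1 ≤ n ∧ n ≤ N ∧ ∀ m : ℕ, m₀ ≤ m → m ≤ M → Good ε m n}.ncard : ℝ) := by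
  intro ε hε
  obtain ⟨m₀, hm₀⟩ := Run7.h435.MD.finalq (Run7.h435.MD.rhs_of hRH) Run7.h435.MD.close_tz hε
  refine ⟨m₀, fun M => ?_⟩
  filter_upwards [hm₀ M] with N hN
  have hl : ∀ (m : ℕ) (f : ℕ → ℝ), Law ε m f ↔ Run7.h435.MD.Gs ε m f := fun m f =>
    ⟨fun h => ⟨h.bounded, h.high, h.low, h.few⟩, fun h => ⟨h.1, h.2.1, h.2.2.1, h.2.2.2⟩⟩
  have e : {n : ℕ | 1 ≤ n ∧ n ≤ N ∧ ∀ m : ℕ, m₀ ≤ m → m ≤ M → Good ε m n} =
      {n : ℕ | 1 ≤ n ∧ n ≤ N ∧ ∀ m : ℕ, m₀ ≤ m → m ≤ M → Run7.h435.MD.GQ Run7.h435.MD.tz ε m n} := by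
    ext n
    constructor
    · rintro ⟨h1, h2, h⟩
      exact ⟨h1, h2, fun m ha hb => ⟨(hl _ _).1 (h m ha hb).gaps, (hl _ _).1 (h m ha hb).count, (h m ha hb).rigid⟩⟩
    · rintro ⟨h1, h2, h⟩
      exact ⟨h1, h2, fun m ha hb => ⟨(hl _ _).2 (h m ha hb).1, (hl _ _).2 (h m ha hb).2.1, (h m ha hb).2.2⟩⟩
  rw [e]
  exact hN

end Pool.Agent.Results.MP_21f43f_nt.ExtremeSumsOfGaps
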