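import Pool.Agent.Run7.h195.LB.Glob
import Pool.Agent.R482.GB.Fin

/-!
# Gaps larger than `3.57` next to the zeros in a Bohr set (under RH)

Assume the Riemann hypothesis. For every `v > 0` there is `ε > 0` such that for all rationally
independent `α₁, …, α_k` and every open subset `U` of the torus of measure at least `v`, for all
large `N` at least `ε N` of the indices `n ≤ N` satisfy at the same time `α γ_n mod 1 ∈ U` and
`δ_n > 3.57`. The theorem `Pool.Agent.Run7.h195.LB.large_idx` (large gaps with an almost periodic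
weight) is put here in terms of open sets.
-/

open Filter Topology Complex MeasureTheory

namespace Pool.Agent.Results.MP_21f43f_nt.LargeGapsBohrSetsSharp

/-- multiplicity of `s` as a zero of the Riemann zeta function (order of vanishing at `s`) -/
noncomputable def zmult (s : ℂ) : ℕ := analyticOrderNatAt riemannZeta s

/-- the number of nontrivial zeros of `ζ` with ordinate in `(0, t]`, with multiplicity -/
noncomputable def NZ (t : ℝ) : ℕ :=
  ∑ᶠ s ∈ {s : ℂ | riemannZeta s = 0 ∧ 0 < s.re ∧ s.re < 1 ∧ 0 < s.im ∧ s.im ≤ t}, zmult s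

/-- for `n ≥ 1`: the `n`-th positive ordinate `γ n` of a nontrivial zero of `ζ`, the ordinates being
listed in nondecreasing order and repeated according to multiplicity -/
noncomputable def γ (n : ℕ) : ℝ := sInf {t : ℝ | n ≤ NZ t}

/-- the normalised gaps `δ_n = (γ_{n+1} log γ_{n+1} - γ_n log γ_n) / 2π` -/
noncomputable def δ (n : ℕ) : ℝ :=
  (γ (n + 1) * Real.log (γ (n + 1)) - γ n * Real.log (γ n)) / (2 * Real.pi)

/-- the point `α t mod 1` of the torus `(ℝ/ℤ)^k` -/
def pt {k : ℕ} (α : Fin k → ℝ) (t : ℝ) : UnitAddTorus (Fin k) :=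
  fun j => ((α j * t : ℝ) : UnitAddCircle)

/-- the normalised Haar measure of the torus -/
noncomputable def haar (k : ℕ) : Measure (UnitAddTorus (Fin k)) :=
  Measure.pi fun _ => AddCircle.haarAddCircle

/-- On the Riemann hypothesis: for every `v > 0` there is `ε > 0` such that for all `k`, all
rationally independent reals `α₁, …, α_k` and every open subset `U` of the torus `(ℝ/ℤ)^k` with
measure `|U| ≥ v`, for all large `N` at least `ε N` of the indices `n ≤ N` satisfy both
`α γ_n mod 1 ∈ U` and `δ_n > 3.57`. -/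
theorem result (RH : RiemannHypothesis) (v : ℝ) (hv : 0 < v) :
    ∃ ε : ℝ, 0 < ε ∧ ∀ (k : ℕ) (α : Fin k → ℝ),
    (∀ n : Fin k → ℤ, ∑ j, (n j : ℝ) * α j = 0 → n = 0) →
    ∀ U : Set (UnitAddTorus (Fin k)), IsOpen U → v ≤ (haar k U).toReal →
      ∃ N₀ : ℕ, ∀ N : ℕ, N₀ ≤ N →
        ε * N ≤ ({n : ℕ | 1 ≤ n ∧ n ≤ N ∧ pt α (γ n) ∈ U ∧ 357 / 100 < δ n}.ncard : ℝ) := by
  classical
  obtain ⟨ε, hε, h'⟩ := Run7.h195.LB.large_idx RH (v / 2) (by positivity)
  refine ⟨ε, hε, fun k α hα U hU hUv => ?_⟩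
  have hpos : 0 < (haar k U).toReal := hv.trans_le hUv
  obtain ⟨f, hf0, hf1, hfU, hfM⟩ := R482.GB.open_inner hU hpos
  have hfM' : (haar k U).toReal / 2 ≤ ∫ x, f x ∂(TH803TW.haarT k) := hfM
  obtain ⟨N0, h⟩ := h' (fun t => f (TH803TW.torusPt α t)) _ (TH803TW.APm_torus hα f)
    (fun t => hf0 _) (fun t => hf1 _) (by linarith)
  refine ⟨N0, fun N hN => ?_⟩
  have hfin : {n : ℕ | 1 ≤ n ∧ n ≤ N ∧ pt α (γ n) ∈ U ∧ 357 / 100 < δ n}.Finite :=
    (Set.finite_Icc 1 N).subset fun n hn => ⟨hn.1, hn.2.1⟩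
  have hsub : ((Finset.Icc 1 N).filter (fun n => 357 / 100 < LG.dlt n)).filter
      (fun n => pt α (γ n) ∈ U) ⊆ hfin.toFinset := by
    intro n hn
    rw [Finset.mem_filter, Finset.mem_filter, Finset.mem_Icc] at hn
    rw [Set.Finite.mem_toFinset]
    have hd : 357 / 100 < δ n := hn.1.2
    exact ⟨hn.1.1.1, hn.1.1.2, hn.2, hd⟩
  refine (h N hN).trans ?_
  calc ∑ n ∈ (Finset.Icc 1 N).filter (fun n => 357 / 100 < LG.dlt n),
        f (TH803TW.torusPt α (SG.ord n)) ≤
      ∑ n ∈ (Finset.Icc 1 N).filter (fun n => 357 / 100 < LG.dlt n),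
        (if pt α (γ n) ∈ U then (1 : ℝ) else 0) := by
        refine Finset.sum_le_sum fun n _ => ?_
        have e : TH803TW.torusPt α (SG.ord n) = pt α (γ n) := rfl
        rw [e]
        split_ifs with h1
        · exact hf1 _
        · exact le_of_eq (hfU _ h1)
    _ = ((((Finset.Icc 1 N).filter (fun n => 357 / 100 < LG.dlt n)).filter
        (fun n => pt α (γ n) ∈ U)).card : ℝ) := by
        rw [Finset.sum_ite, Finset.sum_const_zero, add_zero, Finset.sum_const, nsmul_eq_mul,
          mul_one]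
    _ ≤ (hfin.toFinset.card : ℝ) := by exact_mod_cast Finset.card_le_card hsub
    _ = _ := by rw [Set.ncard_eq_toFinset_card _ hfin]

end Pool.Agent.Results.MP_21f43f_nt.LargeGapsBohrSetsSharp
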